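import Pool.Agent.Helper15.T4.Stmts

/-! Module PLB of t4_mods. -/

set_option autoImplicit false

open Finset MeasureTheory Filter Topology

namespace Pool.Agent.Helper94.T4

open Pool.Agent.Helper15.T4

theorem cov_card {H : Type} [Fintype H] {F : Finset (Sym2 H)} (hF : IsMat F) :
    (cov F).card = 2 * F.card := by
  classical
  obtain ⟨h1, h2, h3⟩ := hF
  have hc : cov F = F.biUnion (fun e => e.toFinset) := by
    ext h
    rw [Finset.mem_biUnion]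
    unfold cov
    rw [Finset.mem_filter]
    constructor
    · rintro ⟨_, e, he, hh⟩
      exact ⟨e, he, Sym2.mem_toFinset.2 hh⟩
    · rintro ⟨e, he, hh⟩
      exact ⟨Finset.mem_univ _, e, he, Sym2.mem_toFinset.1 hh⟩
  rw [hc, Finset.card_biUnion]
  · rw [Finset.sum_congr rfl (fun e he => Sym2.card_toFinset_of_not_isDiag e (h1 e he)),
      Finset.sum_const, smul_eq_mul, mul_comm]
  · intro e he e' he' hne
    rw [Function.onFun, Finset.disjoint_left]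
    intro h hh hh'
    rw [Sym2.mem_toFinset] at hh hh'
    have hcov : h ∈ cov F := h2 e he h hh
    obtain ⟨e0, _, hu⟩ := h3 h hcov
    exact hne ((hu e ⟨he, hh⟩).trans (hu e' ⟨he', hh'⟩).symm)

theorem tv_card {n : ℕ} {F : Finset (Sym2 (HE n))} (hF : IsMat F) :
    (tv F).card ≤ 2 * F.card ∧ 2 * F.card ≤ 3 * (tv F).card := by
  classical
  have hc := cov_card hF
  constructor
  · rw [← hc]
    unfold tv
    exact Finset.card_image_le
  · rw [← hc]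
    have h : cov F ⊆ tv F ×ˢ (univ : Finset (Fin 3)) := by
      intro h hh
      rw [Finset.mem_product]
      refine ⟨?_, Finset.mem_univ _⟩
      unfold tv
      exact Finset.mem_image_of_mem _ hh
    have h' := Finset.card_le_card h
    rw [Finset.card_product, Finset.card_univ, Fintype.card_fin] at h'
    omega

section intg

variable {ι : Type} [Fintype ι]

theorem nsq_nonneg (x : ι → ℝ) : 0 ≤ nsq x := Finset.sum_nonneg fun _ _ => sq_nonneg _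

theorem nsq_cont : Continuous (fun x : ι → ℝ => nsq x) := by
  unfold nsq
  fun_prop

theorem exp_int : Integrable (fun x : ι → ℝ => Real.exp (-(nsq x) / 4)) := by
  have h : Integrable (fun x : ι → ℝ => ∏ i, Real.exp (-(1 / 4) * (x i) ^ 2)) :=
    Integrable.fintype_prod (f := fun _ : ι => fun t : ℝ => Real.exp (-(1 / 4) * t ^ 2))
      (fun _ => integrable_exp_neg_mul_sq (by norm_num))
  refine h.congr (Filter.Eventually.of_forall fun x => ?_)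
  change ∏ i, Real.exp (-(1 / 4) * (x i) ^ 2) = Real.exp (-(nsq x) / 4)
  rw [← Real.exp_sum]
  congr 1
  unfold nsq
  rw [← Finset.mul_sum]
  ring

theorem pow_le (m : ℕ) (s : ℝ) (hs : 0 ≤ s) :
    s ^ m * Real.exp (-(s ^ 2) / 2) ≤ (m.factorial : ℝ) * Real.exp 1 *
      Real.exp (-(s ^ 2) / 4) := by
  have h1 : s ^ m ≤ (m.factorial : ℝ) * Real.exp s := by
    have := Real.pow_div_factorial_le_exp s hs m
    rw [div_le_iff₀ (by positivity)] at this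
    linarith
  have h2 : Real.exp s * Real.exp (-(s ^ 2) / 2) ≤ Real.exp 1 * Real.exp (-(s ^ 2) / 4) := by
    rw [← Real.exp_add, ← Real.exp_add]
    apply Real.exp_le_exp.2
    nlinarith [sq_nonneg (s / 2 - 1)]
  have h3 : (0 : ℝ) ≤ (m.factorial : ℝ) := by positivity
  calc s ^ m * Real.exp (-(s ^ 2) / 2) ≤ (m.factorial : ℝ) * Real.exp s *
        Real.exp (-(s ^ 2) / 2) := mul_le_mul_of_nonneg_right h1 (Real.exp_pos _).le
    _ = (m.factorial : ℝ) * (Real.exp s * Real.exp (-(s ^ 2) / 2)) := by ring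
    _ ≤ (m.factorial : ℝ) * (Real.exp 1 * Real.exp (-(s ^ 2) / 4)) :=
        mul_le_mul_of_nonneg_left h2 h3
    _ = _ := by ring

theorem peak_le {P : (ι → ℝ) → ℂ} {u : ι → ℝ} {q : ℝ} {Q : (ι → ℝ) → ℂ} (hP : Peak P u q Q)
    (x : ι → ℝ) : ‖P x‖ ≤ q * Real.sqrt (nsq x) ^ 3 := by
  have h := hP.le x
  have h0 : 0 ≤ q * Real.sqrt (nsq x) ^ 3 := mul_nonneg hP.q0.le (by positivity)
  refine le_of_sq_le_sq ?_ h0
  refine h.trans (le_of_eq ?_)
  have h1 : Real.sqrt (nsq x) ^ 2 = nsq x := Real.sq_sqrt (nsq_nonneg x)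
  calc q ^ 2 * nsq x ^ 3 = q ^ 2 * (Real.sqrt (nsq x) ^ 2) ^ 3 := by rw [h1]
    _ = _ := by ring

theorem mom_int {P : (ι → ℝ) → ℂ} {u : ι → ℝ} {q : ℝ} {Q : (ι → ℝ) → ℂ} (hP : Peak P u q Q)
    (a b : ℕ) : Integrable (fun x : ι → ℝ => ‖P x‖ ^ a * Real.sqrt (nsq x) ^ b *
      Real.exp (-(nsq x) / 2)) := by
  have hcont : Continuous (fun x : ι → ℝ => ‖P x‖ ^ a * Real.sqrt (nsq x) ^ b *
      Real.exp (-(nsq x) / 2)) := by
    have h1 := hP.cont
    have h2 := nsq_cont (ι := ι)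
    fun_prop
  refine Integrable.mono' ((exp_int (ι := ι)).const_mul
    (q ^ a * (((3 * a + b).factorial : ℝ) * Real.exp 1))) hcont.aestronglyMeasurable
    (Filter.Eventually.of_forall fun x => ?_)
  have hs0 := Real.sqrt_nonneg (nsq x)
  have hs2 : Real.sqrt (nsq x) ^ 2 = nsq x := Real.sq_sqrt (nsq_nonneg x)
  rw [Real.norm_of_nonneg (by positivity)]
  have h1 : ‖P x‖ ^ a ≤ (q * Real.sqrt (nsq x) ^ 3) ^ a :=
    pow_le_pow_left₀ (norm_nonneg _) (peak_le hP x) a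
  have h2 := pow_le (3 * a + b) (Real.sqrt (nsq x)) hs0
  rw [hs2] at h2
  have hq : 0 ≤ q ^ a := pow_nonneg hP.q0.le a
  calc ‖P x‖ ^ a * Real.sqrt (nsq x) ^ b * Real.exp (-(nsq x) / 2)
      ≤ (q * Real.sqrt (nsq x) ^ 3) ^ a * Real.sqrt (nsq x) ^ b * Real.exp (-(nsq x) / 2) := by
        gcongr
    _ = q ^ a * (Real.sqrt (nsq x) ^ (3 * a + b) * Real.exp (-(nsq x) / 2)) := by
        rw [mul_pow, ← pow_mul, pow_add]
        ring
    _ ≤ q ^ a * (((3 * a + b).factorial : ℝ) * Real.exp 1 * Real.exp (-(nsq x) / 4)) :=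
        mul_le_mul_of_nonneg_left h2 hq
    _ = _ := by ring

theorem GI_le {P : (ι → ℝ) → ℂ} {u : ι → ℝ} {q : ℝ} {Q : (ι → ℝ) → ℂ} (hP : Peak P u q Q)
    (φ : (ι → ℝ) → ℂ) (a b : ℕ) (K : ℝ)
    (h : ∀ x, ‖φ x‖ ≤ ‖P x‖ ^ a * K * Real.sqrt (nsq x) ^ b) :
    ‖GI φ‖ ≤ (2 * Real.pi) ^ (-(Fintype.card ι : ℝ) / 2) * (K * ∫ x : ι → ℝ,
      ‖P x‖ ^ a * Real.sqrt (nsq x) ^ b * Real.exp (-(nsq x) / 2)) := by
  unfold GI
  have hp : (0 : ℝ) ≤ (2 * Real.pi) ^ (-(Fintype.card ι : ℝ) / 2) := by positivity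
  rw [norm_mul, Complex.norm_real, Real.norm_of_nonneg hp, ← integral_const_mul]
  refine mul_le_mul_of_nonneg_left ?_ hp
  refine norm_integral_le_of_norm_le ((mom_int hP a b).const_mul K)
    (Filter.Eventually.of_forall fun x => ?_)
  rw [norm_mul, Complex.norm_real, Real.norm_of_nonneg (Real.exp_pos _).le]
  calc ‖φ x‖ * Real.exp (-(nsq x) / 2) ≤ ‖P x‖ ^ a * K * Real.sqrt (nsq x) ^ b *
        Real.exp (-(nsq x) / 2) := mul_le_mul_of_nonneg_right (h x) (Real.exp_pos _).le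
    _ = _ := by ring

end intg

theorem NF_pos {q : ℝ} (hq : 0 < q) {N : ℕ} (hN : 0 < N) : 0 < NF q N := by
  unfold NF
  have : (0 : ℝ) < N := by exact_mod_cast hN
  positivity

theorem PLB (hSUMX : ST_SUMX) (hPSIB : ST_PSIB) (hXC : ST_XC) (hASYB : ST_ASYB) (hPK1 : ST_PK1)
    (hS1A : ST_S1A) : ST_PLB := by
  classical
  intro f
  obtain ⟨K, hK1, hK⟩ := hPSIB L1 L1 m1
  obtain ⟨c, hc, hlim, _⟩ := hS1A
  have hc0 : 0 < ‖c‖ := norm_pos_iff.2 hc
  have hA : ∀ v : ℕ, ∃ C : ℝ, 2 * f ≤ 3 * v → ∀ᶠ N : ℕ in atTop,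
      (∫ x : L1 → ℝ, ‖m1.P x‖ ^ (2 * N - v) * Real.sqrt (nsq x) ^ (3 * v - 2 * f) *
        Real.exp (-(nsq x) / 2)) * (6 * (N : ℝ)) ^ f ≤ C * NF q1 N := by
    intro v
    by_cases hv : 2 * f ≤ 3 * v
    · obtain ⟨C, hC⟩ := hASYB L1 m1.P u1 q1 _ hPK1 v f hv
      exact ⟨C, fun _ => hC⟩
    · exact ⟨0, fun h => absurd h hv⟩
  choose C hC using hA
  obtain ⟨κ, hκ⟩ : ∃ κ : ℝ, κ = (2 * Real.pi) ^ (-(Fintype.card L1 : ℝ) / 2) := ⟨_, rfl⟩
  have hκ0 : 0 < κ := by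
    rw [hκ]
    positivity
  refine ⟨∑ v ∈ range (2 * f + 1), κ * (K ^ v * |C v|) * (2 / ‖c‖), ?_⟩
  have hev1 : ∀ᶠ N : ℕ in atTop, ∀ v ∈ range (2 * f + 1), 2 * f ≤ 3 * v →
      (∫ x : L1 → ℝ, ‖m1.P x‖ ^ (2 * N - v) * Real.sqrt (nsq x) ^ (3 * v - 2 * f) *
        Real.exp (-(nsq x) / 2)) * (6 * (N : ℝ)) ^ f ≤ C v * NF q1 N := by
    rw [Filter.eventually_all_finset]
    intro v _
    by_cases hv : 2 * f ≤ 3 * v
    · filter_upwards [hC v hv] with N hN _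
      exact hN
    · exact Filter.Eventually.of_forall fun N h => absurd h hv
  have hev2 : ∀ᶠ N : ℕ in atTop, ‖c‖ / 2 <
      ‖(∑ M ∈ PM (univ : Finset (HE (2 * N))), (Xc M : ℂ)) / ((NF q1 N : ℝ) : ℂ)‖ :=
    hlim.norm.eventually_const_lt (by linarith)
  filter_upwards [hev1, hev2, Filter.eventually_gt_atTop 0] with N h1 h2 hN F hF hFf
  have hNF : 0 < NF q1 N := NF_pos hPK1.q0 hN
  have hN' : (0 : ℝ) < N := by exact_mod_cast hN
  obtain ⟨S, hS⟩ : ∃ S : ℝ, S = ∑ M ∈ PM (univ : Finset (HE (2 * N))), (Xc M : ℝ) := ⟨_, rfl⟩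
  have hSc : ∑ M ∈ PM (univ : Finset (HE (2 * N))), (Xc M : ℂ) = ((S : ℝ) : ℂ) := by
    rw [hS]
    push_cast
    rfl
  have hS0 : 0 ≤ S := by
    rw [hS]
    exact Finset.sum_nonneg fun x _ => Nat.cast_nonneg _
  rw [hSc, norm_div, Complex.norm_real, Complex.norm_real, Real.norm_of_nonneg hS0,
    Real.norm_of_nonneg hNF.le, lt_div_iff₀ hNF] at h2
  have hSpos : 0 < S := lt_trans (by positivity) h2
  obtain ⟨Y, hY⟩ : ∃ Y : ℝ, Y = ∑ M ∈ (PM (univ : Finset (HE (2 * N)))).filter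
      (fun M => F ⊆ M), (Xc M : ℝ) := ⟨_, rfl⟩
  have hY0 : 0 ≤ Y := by
    rw [hY]
    exact Finset.sum_nonneg fun x _ => Nat.cast_nonneg _
  have hmass : mass (WX N) F = Y / S := by
    unfold mass WX
    rw [← Finset.sum_div, ← hS]
    congr 1
    rw [hY]
  have hYG : ((Y : ℝ) : ℂ) = GI (m1.Psi F) := by
    rw [← hSUMX L1 L1 m1 (2 * N) F hF, hY]
    push_cast
    refine Finset.sum_congr ?_ fun M _ => ((hXC (2 * N) M).2.1).symm
    ext M
    simp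
  obtain ⟨hv1, hv2⟩ := tv_card hF
  rw [hFf] at hv1 hv2
  obtain ⟨v, hv⟩ : ∃ v, v = (tv F).card := ⟨_, rfl⟩
  rw [← hv] at hv1 hv2
  have hGI := GI_le hPK1 (m1.Psi F) (2 * N - v) (3 * v - 2 * f) (K ^ v) (fun x => by
    have := hK (2 * N) F x hF
    rw [← hv, hFf] at this
    exact this)
  rw [← hYG, Complex.norm_real, Real.norm_of_nonneg hY0, ← hκ] at hGI
  have h3 := h1 v (Finset.mem_range.2 (by omega)) hv2
  obtain ⟨I, hI⟩ : ∃ I : ℝ, I = ∫ x : L1 → ℝ, ‖m1.P x‖ ^ (2 * N - v) *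
    Real.sqrt (nsq x) ^ (3 * v - 2 * f) * Real.exp (-(nsq x) / 2) := ⟨_, rfl⟩
  rw [← hI] at hGI h3
  have hK0 : 0 ≤ K ^ v := pow_nonneg (by linarith) v
  have h4 : I * (6 * (N : ℝ)) ^ f ≤ |C v| * NF q1 N :=
    h3.trans (mul_le_mul_of_nonneg_right (le_abs_self _) hNF.le)
  have h6 : (2 * (N : ℝ)) ^ f ≤ (6 * (N : ℝ)) ^ f :=
    pow_le_pow_left₀ (by positivity) (by linarith) f
  have h2N : (0 : ℝ) < (2 * (N : ℝ)) ^ f := by positivity
  have h5 : Y * (2 * (N : ℝ)) ^ f ≤ κ * (K ^ v * |C v|) * NF q1 N := by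
    calc Y * (2 * (N : ℝ)) ^ f ≤ Y * (6 * (N : ℝ)) ^ f := mul_le_mul_of_nonneg_left h6 hY0
      _ ≤ κ * (K ^ v * I) * (6 * (N : ℝ)) ^ f :=
          mul_le_mul_of_nonneg_right hGI (by positivity)
      _ = κ * K ^ v * (I * (6 * (N : ℝ)) ^ f) := by ring
      _ ≤ κ * K ^ v * (|C v| * NF q1 N) :=
          mul_le_mul_of_nonneg_left h4 (mul_nonneg hκ0.le hK0)
      _ = _ := by ring
  have h7 : κ * (K ^ v * |C v|) * (2 / ‖c‖) ≤
      ∑ v ∈ range (2 * f + 1), κ * (K ^ v * |C v|) * (2 / ‖c‖) := by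
    refine Finset.single_le_sum (f := fun v => κ * (K ^ v * |C v|) * (2 / ‖c‖)) (fun w _ => ?_)
      (Finset.mem_range.2 (by omega))
    have : 0 ≤ K ^ w := pow_nonneg (by linarith) w
    positivity
  rw [hmass, le_div_iff₀ h2N, div_mul_eq_mul_div, div_le_iff₀ hSpos]
  refine h5.trans ?_
  have h8 : κ * (K ^ v * |C v|) * NF q1 N ≤ κ * (K ^ v * |C v|) * (2 / ‖c‖) * S := by
    have h9 : NF q1 N ≤ 2 / ‖c‖ * S := by
      rw [div_mul_eq_mul_div, le_div_iff₀ hc0]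
      linarith
    rw [mul_assoc (κ * (K ^ v * |C v|))]
    exact mul_le_mul_of_nonneg_left h9 (by positivity)
  exact h8.trans (mul_le_mul_of_nonneg_right h7 hSpos.le)

end Pool.Agent.Helper94.T4
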